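import Pool.Agent.Y142.ZO.Stm

set_option autoImplicit false

/-!
Project ZO (helper142): common lemmas for the jobs DET and LINE. The determinant of a skew matrix
plus a symmetric matrix of rank one is a square; perturbations of rank one along the kernel.
The first part follows `Pool/Agent/Helper848/SqDet.lean`.
-/

namespace Pool.Agent.Y337.ZO

open Matrix Polynomial

variable {F : Type} [Field F] [CharZero F]

theorem half {a : F} (h : a = -a) : a = 0 := by
  have h2 : (2 : F) * a = 0 := by
    rw [two_mul]
    nth_rewrite 1 [h]
    ring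
  rcases mul_eq_zero.1 h2 with h3 | h3
  · exact absurd h3 two_ne_zero
  · exact h3

theorem det_alt_odd (n : ℕ) (hn : n % 2 = 1) (A : Matrix (Fin n) (Fin n) F)
    (hA : ∀ i j, A i j = -A j i) : A.det = 0 := by
  have h : Aᵀ = -A := by
    ext i j
    rw [transpose_apply, neg_apply, hA]
  have h1 : A.det = (-1) ^ n * A.det := by
    conv_lhs => rw [← det_transpose, h, det_neg, Fintype.card_fin]
  rw [Odd.neg_one_pow (Nat.odd_iff.mpr hn), neg_one_mul] at h1
  exact half h1

omit [CharZero F] in
theorem det_pivot (n : ℕ) (M : Matrix (Fin (n + 1)) (Fin (n + 1)) F) (h : M 0 0 ≠ 0) :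
    M.det = M 0 0 * (Matrix.of fun i j : Fin n =>
      M i.succ j.succ - M i.succ 0 / M 0 0 * M 0 j.succ).det := by
  have h1 : M.det = (Matrix.of fun i j : Fin (n + 1) =>
      M i j - (if i = 0 then 0 else M i 0 / M 0 0) * M 0 j).det := by
    refine det_eq_of_forall_row_eq_smul_add_const (fun i => if i = 0 then 0 else M i 0 / M 0 0) 0
      (by simp) ?_
    intro i j
    simp only [Matrix.of_apply, if_true, zero_mul, sub_zero]
    ring
  rw [h1, det_succ_column_zero]
  rw [Finset.sum_eq_single 0]
  · simp only [Fin.val_zero, pow_zero, one_mul, Matrix.of_apply, if_true, zero_mul, sub_zero]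
    congr 2
  · intro i _ hi
    simp only [Matrix.of_apply, if_neg hi]
    rw [div_mul_cancel₀ _ h, sub_self]
    ring
  · intro h0
    exact absurd (Finset.mem_univ _) h0

theorem isSquare_skew (n : ℕ) : ∀ (A : Matrix (Fin n) (Fin n) F) (w : Fin n → F),
    (∀ i j, A i j = -A j i) → IsSquare (Matrix.of fun i j => A i j + w i * w j).det := by
  induction n with
  | zero =>
    intro A w _
    rw [det_fin_zero]
    exact ⟨1, by norm_num⟩
  | succ n ih =>
    have key : ∀ (A : Matrix (Fin (n + 1)) (Fin (n + 1)) F) (w : Fin (n + 1) → F),
        (∀ i j, A i j = -A j i) → w 0 ≠ 0 →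
        IsSquare (Matrix.of fun i j => A i j + w i * w j).det := by
      intro A w hA hw
      have h00 : A 0 0 = 0 := half (hA 0 0)
      have h0 : (Matrix.of fun i j => A i j + w i * w j) 0 0 = w 0 * w 0 := by
        rw [Matrix.of_apply, h00, zero_add]
      rw [det_pivot n _ (by rw [h0]; exact mul_ne_zero hw hw), h0]
      have h1 := ih (Matrix.of fun i j : Fin n => A i.succ j.succ +
        (A 0 i.succ * w j.succ - w i.succ * A 0 j.succ) / w 0) (fun i => A 0 i.succ / w 0)
        (by
          intro i j
          simp only [Matrix.of_apply]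
          rw [hA i.succ j.succ]
          ring)
      have h2 : (Matrix.of fun i j : Fin n =>
          (Matrix.of fun i j => A i j + w i * w j) i.succ j.succ -
          (Matrix.of fun i j => A i j + w i * w j) i.succ 0 / (w 0 * w 0) *
          (Matrix.of fun i j => A i j + w i * w j) 0 j.succ) =
          (Matrix.of fun i j : Fin n => (Matrix.of fun i j : Fin n => A i.succ j.succ +
        (A 0 i.succ * w j.succ - w i.succ * A 0 j.succ) / w 0) i j +
        (A 0 i.succ / w 0) * (A 0 j.succ / w 0)) := by
        ext i j
        simp only [Matrix.of_apply]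
        rw [hA i.succ 0]
        field_simp
        ring
      rw [h2]
      exact IsSquare.mul ⟨w 0, rfl⟩ h1
    intro A w hA
    by_cases hw : w = 0
    · subst hw
      simp only [Pi.zero_apply, mul_zero, add_zero]
      have hAA : (Matrix.of fun i j => A i j) = A := rfl
      rw [hAA]
      by_cases hn : (n + 1) % 2 = 1
      · rw [det_alt_odd _ hn A hA]
        exact ⟨0, by norm_num⟩
      · have hn' : n % 2 = 1 := by omega
        have h1 := key A (fun i => if i = 0 then 1 else 0) hA (by simp)
        have h2 : (Matrix.of fun i j => A i j + (if i = 0 then (1 : F) else 0) *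
            (if j = 0 then 1 else 0)) = A.updateRow 0 (A 0 + Pi.single 0 1) := by
          ext i j
          rw [Matrix.of_apply, updateRow_apply]
          by_cases hi : i = 0
          · subst hi
            rw [if_pos rfl, if_pos rfl, Pi.add_apply, Pi.single_apply, one_mul]
          · rw [if_neg hi, if_neg hi, zero_mul, add_zero]
        rw [h2, det_updateRow_add, updateRow_eq_self] at h1
        have h3 : (A.updateRow 0 (Pi.single 0 1)).det = 0 := by
          rw [det_succ_row_zero, Finset.sum_eq_single 0]
          · have h4 : ((A.updateRow 0 (Pi.single 0 1)).submatrix Fin.succ (Fin.succAbove 0)).det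
                = 0 := by
              apply det_alt_odd n hn'
              intro i j
              rw [submatrix_apply, submatrix_apply, updateRow_apply, updateRow_apply,
                if_neg (Fin.succ_ne_zero _), if_neg (Fin.succ_ne_zero _), Fin.succAbove_zero]
              exact hA _ _
            rw [h4, mul_zero]
          · intro j _ hj
            rw [updateRow_self, Pi.single_apply, if_neg hj]
            ring
          · intro h0
            exact absurd (Finset.mem_univ _) h0
        rw [h3, add_zero] at h1
        exact h1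
    · obtain ⟨i, hi⟩ := Function.ne_iff.mp hw
      let e := Equiv.swap (0 : Fin (n + 1)) i
      have h1 := key (A.submatrix e e) (w ∘ e) (by
        intro a b
        rw [submatrix_apply, submatrix_apply]
        exact hA _ _) (by
        simp only [Function.comp_apply, e, Equiv.swap_apply_left]
        exact hi)
      have h2 : (Matrix.of fun a b => A.submatrix e e a b + (w ∘ e) a * (w ∘ e) b) =
          (Matrix.of fun a b => A a b + w a * w b).submatrix e e := by
        ext a b
        simp only [Matrix.of_apply, submatrix_apply, Function.comp_apply]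
      rw [h2, det_submatrix_equiv_self] at h1
      exact h1

/-- The determinant of a skew matrix plus a symmetric matrix of rank one is a square. -/
theorem isSquare_add_vecMulVec {N : ℕ} (A : Matrix (Fin N) (Fin N) F) (w : Fin N → F)
    (hA : Aᵀ = -A) : IsSquare (A + vecMulVec w w).det := by
  have h := isSquare_skew N A w fun i j => by
    have := congrFun (congrFun hA j) i
    rw [transpose_apply, neg_apply] at this
    exact this
  exact h

omit [CharZero F] in
/-- A perturbation of rank one whose image is in the kernel. -/
theorem charpoly_perturb {N : ℕ} (M : Matrix (Fin N) (Fin N) F) (a b : Fin N → F) (q : F[X])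
    (hM : M *ᵥ a = 0) (hq : M.charpoly = X * q) :
    (M + vecMulVec a b).charpoly = q * (X - C (a ⬝ᵥ b)) := by
  have hN : 1 ≤ N := by
    rcases Nat.eq_zero_or_pos N with h | h
    · subst h
      rw [charpoly_isEmpty] at hq
      have := congrArg (Polynomial.eval 0) hq
      rw [eval_one, eval_mul, eval_X, zero_mul] at this
      exact absurd this one_ne_zero
    · exact h
  have h0 : M * vecMulVec a b = 0 := by
    rw [mul_vecMulVec, hM]
    ext i j
    rw [vecMulVec_apply]
    simp
  have h1 : charmatrix M * charmatrix (vecMulVec a b) =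
      (X : F[X]) • charmatrix (M + vecMulVec a b) := by
    unfold charmatrix
    have hX : (Matrix.scalar (Fin N)) (X : F[X]) = (X : F[X]) • (1 : Matrix (Fin N) (Fin N) F[X]) := by
      rw [smul_one_eq_diagonal]
      rfl
    have h2 : (C : F →+* F[X]).mapMatrix M * (C : F →+* F[X]).mapMatrix (vecMulVec a b) = 0 := by
      rw [← map_mul, h0, map_zero]
    rw [map_add, hX]
    rw [sub_mul, mul_sub, mul_sub, h2, sub_zero, smul_mul_assoc, one_mul, smul_mul_assoc, one_mul,
      mul_smul_comm, mul_one, smul_sub, smul_add]
    abel
  have h3 := congrArg Matrix.det h1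
  rw [det_mul, det_smul, Fintype.card_fin] at h3
  change M.charpoly * (vecMulVec a b).charpoly = X ^ N * (M + vecMulVec a b).charpoly at h3
  rw [charpoly_vecMulVec, Fintype.card_fin, hq] at h3
  have h4 : (X : F[X]) ^ N = X ^ (N - 1) * X := by
    rw [← pow_succ, Nat.sub_add_cancel hN]
  have h5 : (X : F[X]) ^ N * (q * (X - C (a ⬝ᵥ b))) = X ^ N * (M + vecMulVec a b).charpoly := by
    rw [← h3, h4, smul_eq_C_mul]
    ring
  exact (mul_left_cancel₀ (pow_ne_zero _ X_ne_zero) h5).symm

omit [CharZero F] in
theorem det_perturb {N : ℕ} (M : Matrix (Fin N) (Fin N) F) (a b : Fin N → F) (q : F[X])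
    (hM : M *ᵥ a = 0) (hq : M.charpoly = X * q) :
    (M + vecMulVec a b).det = (-1) ^ N * (q.eval 0 * -(a ⬝ᵥ b)) := by
  have h := charpoly_perturb M a b q hM hq
  rw [det_eq_sign_charpoly_coeff, h, Fintype.card_fin, coeff_zero_eq_eval_zero, eval_mul, eval_sub,
    eval_X, eval_C, zero_sub]

omit [CharZero F] in
theorem det_perturb_odd {N : ℕ} (hN : Odd N) (M : Matrix (Fin N) (Fin N) F) (a b : Fin N → F)
    (q : F[X]) (hM : M *ᵥ a = 0) (hq : M.charpoly = X * q) :
    (M + vecMulVec a b).det = q.eval 0 * (a ⬝ᵥ b) := by
  rw [det_perturb M a b q hM hq, hN.neg_one_pow]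
  ring

omit [CharZero F] in
/-- the characteristic polynomial of `g - 1` -/
theorem charpoly_sub_one {N : ℕ} (g : Matrix (Fin N) (Fin N) F) (Q : F[X])
    (hQ : g.charpoly = (X - 1) * Q) : (g - 1).charpoly = X * Q.comp (X + 1) := by
  have h := charpoly_sub_scalar g (1 : F)
  rw [map_one, map_one] at h
  rw [h, hQ, mul_comp, sub_comp, X_comp, one_comp, add_sub_cancel_right]

end Pool.Agent.Y337.ZO
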