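import Pool.Agent.Y337.ZO.Key

set_option autoImplicit false

/-!
Project ZO (helper142), job DET: `S_DET` and `S_ISO`.
-/

namespace Pool.Agent.Y337.ZO

open Matrix Polynomial Pool.Agent.Y142.ZO

theorem bil_eq {F : Type} [Field F] {N : ℕ} (B : Matrix (Fin N) (Fin N) F) (y : Fin N → F) :
    bil B y y = y ⬝ᵥ (B *ᵥ y) := rfl

theorem det_t : S_DET := by
  intro F _ _ N hN B T y q hB hT hy hq
  have h1 := det_perturb_odd hN T y (B *ᵥ y) q hy hq
  have h2 : B * (T + vecMulVec y (B *ᵥ y)) = B * T + vecMulVec (B *ᵥ y) (B *ᵥ y) := by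
    rw [mul_add, mul_vecMulVec]
  have h3 := isSquare_add_vecMulVec (B * T) (B *ᵥ y) hT
  rw [← h2, det_mul, h1] at h3
  rw [bil_eq]
  convert h3 using 1
  ring

theorem iso_t : S_ISO := by
  intro F _ _ N hN B g y Q hB hBd hg hy hQ
  by_cases hz : Q.eval 1 * Q.eval (-1) = 0
  · rw [hz, zero_mul, zero_mul]
    exact ⟨0, by ring⟩
  have hQm : Q.eval (-1) ≠ 0 := fun h => hz (by rw [h, mul_zero])
  -- the determinant of `g + 1`
  have hd1 : (g + 1).det = 2 * Q.eval (-1) := by
    have h := eval_charpoly g (-1 : F)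
    rw [hQ, eval_mul, eval_sub, eval_X, eval_one] at h
    have h2 : (Matrix.scalar (Fin N)) (-1 : F) - g = -(g + 1) := by
      rw [map_neg, map_one]
      abel
    rw [h2, det_neg, Fintype.card_fin, hN.neg_one_pow] at h
    linear_combination h
  have hd1' : (g + 1).det ≠ 0 := by
    rw [hd1]
    exact mul_ne_zero two_ne_zero hQm
  -- the inverse of `g`
  have hBu : IsUnit B.det := isUnit_iff_ne_zero.2 hBd
  have hdet2 : g.det * g.det = 1 := by
    have h := congrArg Matrix.det hg
    rw [det_mul, det_mul, det_transpose] at h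
    have h3 : (g.det * g.det) * B.det = 1 * B.det := by
      rw [one_mul]
      linear_combination h
    exact mul_right_cancel₀ hBd h3
  have hgd : g.det ≠ 0 := fun h => by
    rw [h, zero_mul] at hdet2
    exact zero_ne_one hdet2
  have hgu : IsUnit g.det := isUnit_iff_ne_zero.2 hgd
  have hgi : g * g⁻¹ = 1 := mul_nonsing_inv g hgu
  have hig : g⁻¹ * g = 1 := nonsing_inv_mul g hgu
  -- `B g⁻¹ = gᵀ B`
  have hBi : B * g⁻¹ = gᵀ * B := by
    have h : gᵀ * B * g * g⁻¹ = B * g⁻¹ := by rw [hg]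
    rw [mul_assoc, hgi, mul_one] at h
    exact h.symm
  have hdetg : g.det = 1 := by
    have h1 : B * (g⁻¹ + 1) = (gᵀ + 1) * B := by
      rw [mul_add, add_mul, hBi, mul_one, one_mul]
    have h2 := congrArg Matrix.det h1
    rw [det_mul, det_mul] at h2
    have h3 : (gᵀ + 1).det = (g + 1).det := by
      rw [← det_transpose (g + 1), transpose_add, transpose_one]
    rw [h3] at h2
    have h4 : (g⁻¹ + 1).det = (g + 1).det := by
      have h5 : B.det * (g⁻¹ + 1).det = B.det * (g + 1).det := by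
        rw [h2]
        ring
      exact mul_left_cancel₀ hBd h5
    have h6 : g + 1 = g * (g⁻¹ + 1) := by
      rw [mul_add, hgi, mul_one]
      abel
    have h7 := congrArg Matrix.det h6
    rw [det_mul, h4] at h7
    have h8 : 1 * (g + 1).det = g.det * (g + 1).det := by
      rw [one_mul]
      exact h7
    exact (mul_right_cancel₀ hd1' h8).symm
  -- the skew map
  have hT : Skew B (g - g⁻¹) := by
    unfold Skew
    rw [mul_sub, hBi, transpose_sub, transpose_mul, transpose_mul, transpose_transpose, hB]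
    abel
  have hiy : g⁻¹ *ᵥ y = y := by
    have h : g⁻¹ *ᵥ (g *ᵥ y) = g⁻¹ *ᵥ y := by rw [hy]
    rw [mulVec_mulVec, hig, one_mulVec] at h
    exact h.symm
  set z : Fin N → F := B *ᵥ y with hzd
  have hzi : z ᵥ* g⁻¹ = z := by
    have h : g⁻¹ᵀ * B = B * g := by
      have h' := congrArg Matrix.transpose hBi
      rw [transpose_mul, transpose_mul, transpose_transpose, hB] at h'
      exact h'
    rw [← mulVec_transpose, hzd, mulVec_mulVec, h, ← mulVec_mulVec, hy]
  have hzg : z ᵥ* g = z := by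
    have h : (z ᵥ* g⁻¹) ᵥ* g = z ᵥ* g := by rw [hzi]
    rw [vecMul_vecMul, hig, vecMul_one] at h
    exact h.symm
  -- factorisation
  have hfac : g - g⁻¹ + vecMulVec y z =
      (g - 1 + vecMulVec y ((1 / 2 : F) • z)) * (g + 1) * g⁻¹ := by
    have e1 : vecMulVec y ((1 / 2 : F) • z) * (g + 1) = vecMulVec y z := by
      rw [vecMulVec_mul, vecMul_add, vecMul_one, smul_vecMul, hzg, ← add_smul]
      norm_num
    have e2 : vecMulVec y z * g⁻¹ = vecMulVec y z := by
      rw [vecMulVec_mul, hzi]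
    rw [add_mul, e1, add_mul, e2]
    congr 1
    have e3 : (g - 1) * (g + 1) = g * g - 1 := by
      rw [sub_mul, mul_add, mul_one, one_mul]
      abel
    rw [e3, sub_mul, mul_assoc, hgi, mul_one, one_mul]
  have hM : (g - 1) *ᵥ y = 0 := by
    rw [sub_mulVec, hy, one_mulVec, sub_self]
  have hdM := det_perturb_odd hN (g - 1) y ((1 / 2 : F) • z) (Q.comp (X + 1)) hM
    (charpoly_sub_one g Q hQ)
  have hdi : (g⁻¹).det = 1 := by
    have h := congrArg Matrix.det hgi
    rw [det_mul, hdetg, one_mul, det_one] at h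
    exact h
  have hdT : (g - g⁻¹ + vecMulVec y z).det = Q.eval 1 * Q.eval (-1) * (y ⬝ᵥ z) := by
    rw [hfac, det_mul, det_mul, hdM, hd1, hdi, eval_comp, eval_add, eval_X, eval_one, zero_add,
      dotProduct_smul, smul_eq_mul]
    ring
  have h2 : B * (g - g⁻¹ + vecMulVec y z) = B * (g - g⁻¹) + vecMulVec z z := by
    rw [mul_add, mul_vecMulVec]
  have h3 := isSquare_add_vecMulVec (B * (g - g⁻¹)) z hT
  rw [← h2, det_mul, hdT] at h3
  rw [bil_eq]
  convert h3 using 1
  ring

end Pool.Agent.Y337.ZO
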