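import Pool.Agent.Y337.ZO.Key

set_option autoImplicit false

/-!
Project ZO (helper142), job LINE: `S_LINE` and `S_QZ`.
-/

namespace Pool.Agent.Y337.ZO

open Matrix Polynomial Pool.Agent.Y142.ZO

theorem line_t : S_LINE := by
  intro F _ _ N B g Q hB hBd hg hQ hQ1
  have hM : (g - 1).charpoly = X * Q.comp (X + 1) := charpoly_sub_one g Q hQ
  have hq0 : (Q.comp (X + 1)).eval 0 ≠ 0 := by
    rw [eval_comp, eval_add, eval_X, eval_one, zero_add]
    exact hQ1
  have hdet : (g - 1).det = 0 := by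
    rw [det_eq_sign_charpoly_coeff, hM, coeff_zero_eq_eval_zero, eval_mul, eval_X, zero_mul,
      mul_zero]
  obtain ⟨y, hy0, hy⟩ := exists_mulVec_eq_zero_iff.2 hdet
  obtain ⟨i, hi⟩ := Function.ne_iff.1 hy0
  rw [Pi.zero_apply] at hi
  set b : Fin N → F := Pi.single i (y i)⁻¹ with hb
  have hyb : y ⬝ᵥ b = 1 := by
    rw [hb, dotProduct_single, mul_inv_cancel₀ hi]
  have hdp : (g - 1 + vecMulVec y b).det ≠ 0 := by
    rw [det_perturb (g - 1) y b _ hy hM, hyb]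
    exact mul_ne_zero (pow_ne_zero _ (neg_ne_zero.2 one_ne_zero))
      (mul_ne_zero hq0 (neg_ne_zero.2 one_ne_zero))
  refine ⟨y, ⟨hy0, hy, ?_⟩, ?_⟩
  · intro x hx
    refine ⟨b ⬝ᵥ x, ?_⟩
    by_contra hne
    refine hdp (exists_mulVec_eq_zero_iff.1 ⟨x - (b ⬝ᵥ x) • y, sub_ne_zero.2 hne, ?_⟩)
    have e1 : vecMulVec y b *ᵥ x = (b ⬝ᵥ x) • y := by
      rw [vecMulVec_mulVec]
      ext j
      simp [mul_comm]
    have e2 : vecMulVec y b *ᵥ y = y := by
      rw [vecMulVec_mulVec, dotProduct_comm b y, hyb]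
      ext j
      simp
    rw [mulVec_sub, add_mulVec, add_mulVec, mulVec_smul, mulVec_smul, hx, hy, e1, e2, smul_zero]
    simp
  · intro hbil
    have hgy : g *ᵥ y = y := by
      rw [sub_mulVec, one_mulVec, sub_eq_zero] at hy
      exact hy
    have hz : (B *ᵥ y) ᵥ* (g - 1) = 0 := by
      have h1 : (B *ᵥ y) ᵥ* g = B *ᵥ y := by
        have h2 : (gᵀ * B * g) *ᵥ y = B *ᵥ y := by rw [hg]
        rw [← mulVec_mulVec, hgy, ← mulVec_mulVec] at h2
        rw [← mulVec_transpose]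
        exact h2
      rw [vecMul_sub, h1, vecMul_one, sub_self]
    have hz0 : B *ᵥ y ≠ 0 := fun h => hBd (exists_mulVec_eq_zero_iff.1 ⟨y, hy0, h⟩)
    refine hdp (exists_vecMul_eq_zero_iff.1 ⟨B *ᵥ y, hz0, ?_⟩)
    rw [vecMul_add, hz, zero_add, vecMul_vecMulVec]
    have h0 : (B *ᵥ y) ⬝ᵥ y = 0 := by
      rw [dotProduct_comm]
      exact hbil
    rw [h0]
    ext j
    simp

theorem qz_t : S_QZ := by
  intro F _ _ N B T y q hB hBd hT hK hbil hq
  obtain ⟨hy0, hy, hline⟩ := hK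
  have hzT : (B *ᵥ y) ᵥ* T = 0 := by
    unfold Skew at hT
    have h1 : Tᵀ * B = -(B * T) := by
      rw [← hT, transpose_mul, hB]
    rw [← mulVec_transpose, mulVec_mulVec, h1, neg_mulVec, ← mulVec_mulVec, hy, mulVec_zero,
      neg_zero]
  have hdet : (T + vecMulVec y (B *ᵥ y)).det ≠ 0 := by
    intro h
    obtain ⟨x, hx0, hx⟩ := exists_mulVec_eq_zero_iff.2 h
    have e1 : vecMulVec y (B *ᵥ y) *ᵥ x = ((B *ᵥ y) ⬝ᵥ x) • y := by
      rw [vecMulVec_mulVec]
      ext j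
      simp [mul_comm]
    rw [add_mulVec, e1] at hx
    have h2 := congrArg (fun v => (B *ᵥ y) ⬝ᵥ v) hx
    simp only [dotProduct_add, dotProduct_zero, dotProduct_smul, smul_eq_mul] at h2
    rw [dotProduct_mulVec, hzT, zero_dotProduct, zero_add] at h2
    have hzy : (B *ᵥ y) ⬝ᵥ y ≠ 0 := by
      rw [dotProduct_comm]
      exact hbil
    have h3 : (B *ᵥ y) ⬝ᵥ x = 0 := (mul_eq_zero.1 h2).resolve_right hzy
    rw [h3, zero_smul, add_zero] at hx
    obtain ⟨a, rfl⟩ := hline x hx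
    rw [dotProduct_smul, smul_eq_mul] at h3
    have ha : a = 0 := (mul_eq_zero.1 h3).resolve_right hzy
    exact hx0 (by rw [ha, zero_smul])
  rw [det_perturb T y (B *ᵥ y) q hy hq] at hdet
  intro h
  rw [h, zero_mul, mul_zero] at hdet
  exact hdet rfl

end Pool.Agent.Y337.ZO
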